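import Pool.Agent.Helper31.DS.Final

/-!
# An algebraically doubly slice 5-knot with group `ℤ` which is not doubly slice

The definitions are in `Pool/Agent/Helper82/DK2/Defs.lean` and `Pool/Agent/Helper36/AS/Space.lean`.

`K` is a twisted spin of the trefoil: let `N = RP³ # S¹×S²` and `M = N × S¹`, embedded in `S⁵` with a
bicollar `M × ℝ`, and let `τ (n, θ) = φ (n) θ³`, `φ : N → S¹` of degree one on `S¹×S²`. `K ⊆ S⁷` is `S⁵` with
the fibres `{m} × ℝ` replaced by long trefoils rotated by `τ (m)`.

The infinite cyclic cover of the complement is simply connected, and its rational cohomology with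
compact supports in degree `4` is zero. On the 3-fold cyclic cover `X₃` there is a class `x` of
degree two with compact supports and coefficients `ℤ/2` such that `(1 + T + T²) x = 0`, such that the
only classes with this property are `0, x, T x, x + T x`, and such that `κ ∪ x ∪ x ∪ T x ≠ 0` for
the mod 2 class `κ` of degree one. If `K` were doubly slice then `X₃` would be the common boundary of two closed
subsets `P`, `Q` with union `ℝ⁷ × S¹`, and `x` or `T x` would extend to `P` or to `Q`, together with `κ`;
so the non-zero class of degree `7` of the boundary would extend, which is impossible.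
-/

namespace Pool.Agent.Results.MP_66d375_gt.KnotGroupZ

open Pool.Agent.Helper82.DK2

/-- There is a `5`-knot with knot group `ℤ`, whose middle dimensional module is zero modulo
`ℤ`-torsion (so it is algebraically doubly slice), and which is not doubly slice. -/
theorem result : ∃ f : Sph 5 → Sph 7, IsKnot 5 f ∧ GroupIsZ f ∧ MiddleTrivial f ∧
    ¬ IsDoublySlice f :=
  Pool.Agent.Helper31.DS.main

end Pool.Agent.Results.MP_66d375_gt.KnotGroupZ
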