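import Pool.Agent.Helper82.DS.Final

/-!
# Algebraically doubly slice symmetric complexes without complementary slices

`SymCx n`: an `n`-dimensional symmetric complex over `ℤ[ℤ]` (Ranicki's conventions, all
formulae in `Pool/Agent/Helper82/DS/Defs.lean`).  `Good q X`: the complex `X`, of dimension
`2q+1 = (2q-1)+2`, is Poincare, lives in degrees `q-1, ..., q+2`, is contractible over `ℤ` at
`t = 1` and has a non-zero integer chain homotopic to `0` (so its homology is `ℤ`-torsion).
`dbl X = X ⊕ -X`.
-/

namespace Pool.Agent.Results.MP_66d375_gt.NoComplementarySlices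

open Pool.Agent.Helper82.DS

/-- For every `q` there are `X 0, X 1, ...` such that every finite signed direct sum of
(repetitions of) them is `Good`, and has no complementary symmetric Poincare pairs as soon as
some `X i` occurs exactly once; every `X i ⊕ -X i` does have complementary pairs. -/
theorem result (q : ℤ) : ∃ X : ℕ → SymCx (2 * q + 1),
    (∀ i, HasComplementarySlices (dbl (X i)).Φ) ∧
    ∀ (J : Type) [Fintype J] [DecidableEq J] (k : J → ℕ) (u : J → ℤˣ),
      Good q (SymCx.sumFam fun j => (X (k j)).scale (u j)) ∧
      ((∃ j, ∀ l, k l = k j → l = j) →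
        ¬ HasComplementarySlices (SymCx.sumFam fun j => (X (k j)).scale (u j)).Φ) :=
  main q

end Pool.Agent.Results.MP_66d375_gt.NoComplementarySlices
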